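import Mathlib

set_option autoImplicit false

open Matrix MeasureTheory

namespace Pool.Agent.Helper452.Fins

/-- `R^n`, used both for the points of the manifold `M = R^n` and for its tangent vectors. -/
abbrev V (n : ℕ) := Fin n → ℝ

variable {n : ℕ}

/-- partial derivative in the `i`-th position coordinate, `∂f/∂x^i (x,y)` -/
noncomputable def dX (i : Fin n) (f : V n → V n → ℝ) (x y : V n) : ℝ :=
  deriv (fun s : ℝ => f (Function.update x i s) y) (x i)

/-- partial derivative in the `i`-th tangent coordinate, `∂f/∂y^i (x,y)` -/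
noncomputable def dY (i : Fin n) (f : V n → V n → ℝ) (x y : V n) : ℝ :=
  deriv (fun s : ℝ => f x (Function.update y i s)) (y i)

/-- `F^2` -/
def sq (F : V n → V n → ℝ) : V n → V n → ℝ := fun x y => F x y ^ 2

/-- The fundamental tensor `g_ij(x,y) = (1/2) ∂²F²/∂y^i∂y^j`. -/
noncomputable def fund (F : V n → V n → ℝ) (x y : V n) : Matrix (Fin n) (Fin n) ℝ :=
  Matrix.of fun i j => (1 / 2) * dY i (dY j (sq F)) x y

/-- `g_y(u,w)` -/
noncomputable def gy (F : V n → V n → ℝ) (x y u w : V n) : ℝ :=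
  u ⬝ᵥ (fund F x y *ᵥ w)

/-- Spray coefficients `G^i = (1/4) g^{il} ([F²]_{x^k y^l} y^k - [F²]_{x^l})`. -/
noncomputable def spray (F : V n → V n → ℝ) (i : Fin n) : V n → V n → ℝ := fun x y =>
  (1 / 4) * ∑ l, (fund F x y)⁻¹ i l *
    ((∑ k, dY l (dX k (sq F)) x y * y k) - dX l (sq F) x y)

/-- The Riemann curvature
`R^i_k = 2 ∂G^i/∂x^k - y^j ∂²G^i/∂x^j∂y^k + 2 G^j ∂²G^i/∂y^j∂y^k - ∂G^i/∂y^j ∂G^j/∂y^k`. -/
noncomputable def riem (F : V n → V n → ℝ) (x y : V n) : Matrix (Fin n) (Fin n) ℝ :=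
  Matrix.of fun i k =>
    2 * dX k (spray F i) x y - (∑ j, y j * dX j (dY k (spray F i)) x y)
      + 2 * (∑ j, spray F j x y * dY j (dY k (spray F i)) x y)
      - ∑ j, dY j (spray F i) x y * dY k (spray F j) x y

/-- The flag curvature `K(y, span{y,u}) = g_y(R_y u,u) / (g_y(y,y) g_y(u,u) - g_y(y,u)²)`. -/
noncomputable def flagK (F : V n → V n → ℝ) (x y u : V n) : ℝ :=
  gy F x y (riem F x y *ᵥ u) u / (gy F x y y y * gy F x y u u - gy F x y y u ^ 2)

/-- A (smooth, not necessarily reversible) Finsler metric on `R^n`. -/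
structure IsFinsler (F : V n → V n → ℝ) : Prop where
  nonneg : ∀ x y, 0 ≤ F x y
  smooth : ContDiffOn ℝ (⊤ : ℕ∞) (fun p : V n × V n => F p.1 p.2) {p | p.2 ≠ 0}
  homog : ∀ (x y : V n) (c : ℝ), 0 ≤ c → F x (c • y) = c * F x y
  pos : ∀ x y, y ≠ 0 → (fund F x y).PosDef

/-- `(R^n, F)` is homogeneous: the diffeomorphisms that preserve `F` act transitively. -/
def IsHomogeneous (F : V n → V n → ℝ) : Prop :=
  ∀ p q : V n, ∃ Φ : V n ≃ V n, ContDiff ℝ (⊤ : ℕ∞) Φ ∧ ContDiff ℝ (⊤ : ℕ∞) Φ.symm ∧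
    (∀ x y, F (Φ x) (fderiv ℝ Φ x y) = F x y) ∧ Φ p = q

/-- `F` is Riemannian: `F(y) = sqrt(h(y,y))` for a Riemannian metric `h`. -/
def IsRiemannian (F : V n → V n → ℝ) : Prop :=
  ∃ h : V n → Matrix (Fin n) (Fin n) ℝ, ContDiff ℝ (⊤ : ℕ∞) (fun x i j => h x i j) ∧
    (∀ x, (h x).PosDef) ∧ ∀ x y, F x y = Real.sqrt (y ⬝ᵥ (h x *ᵥ y))

/-- `e_1,...,e_m` is a `g_y`-orthonormal basis of the `g_y`-orthogonal complement of `y`
(dimension `m + 1`). -/
def IsFrame {m : ℕ} (F : V (m + 1) → V (m + 1) → ℝ) (x y : V (m + 1))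
    (e : Fin m → V (m + 1)) : Prop :=
  (∀ i, gy F x y y (e i) = 0) ∧ ∀ i j, gy F x y (e i) (e j) = if i = j then 1 else 0

/-- The Ricci scalar `F(y)^2 * sum_i K(y, span{y, e_i})` computed in the frame `e`. -/
noncomputable def ricciIn {m : ℕ} (F : V (m + 1) → V (m + 1) → ℝ) (x y : V (m + 1))
    (e : Fin m → V (m + 1)) : ℝ :=
  F x y ^ 2 * ∑ i, flagK F x y (e i)

/-- Negative Ricci scalar: for all `y ≠ 0` frames exist, the Ricci scalar `Ric(y)` is negative in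
every frame, and so is the trace of the Riemann curvature operator `R_y` (the two numbers are the
same). -/
def NegativeRicci {m : ℕ} (F : V (m + 1) → V (m + 1) → ℝ) : Prop :=
  ∀ x y : V (m + 1), y ≠ 0 →
    (∃ e, IsFrame F x y e) ∧ (∀ e, IsFrame F x y e → ricciIn F x y e < 0) ∧
      (riem F x y).trace < 0

/-- Density of the Busemann-Hausdorff volume form: `vol(B^n) / vol{y : F(x,y) < 1}`. -/
noncomputable def sigmaBH (F : V n → V n → ℝ) (x : V n) : ℝ :=
  (volume {y : V n | ∑ i, y i ^ 2 < 1}).toReal / (volume {y : V n | F x y < 1}).toReal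

/-- Distortion `τ(x,y) = log( sqrt(det g_ij(x,y)) / σ(x) )`. -/
noncomputable def distortion (F : V n → V n → ℝ) (x y : V n) : ℝ :=
  Real.log (Real.sqrt (fund F x y).det / sigmaBH F x)

/-- `γ` with velocity `v` is a geodesic on the time interval `(-ε, ε)`:
`γ' = v`, `v' = - 2 G(γ, v)`. -/
def IsGeodesicOn (F : V n → V n → ℝ) (ε : ℝ) (γ v : ℝ → V n) : Prop :=
  ∀ t ∈ Set.Ioo (-ε) ε, HasDerivAt γ (v t) t ∧
    HasDerivAt v (fun i => -2 * spray F i (γ t) (v t)) t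

/-- The S-curvature vanishes identically: for every `x` and every `y ≠ 0` there is a geodesic `γ`
with `γ(0) = x`, `γ'(0) = y`, and for every such geodesic the derivative at `0` of the distortion
`τ(γ(t), γ'(t))` is `0`. -/
def VanishingS (F : V n → V n → ℝ) : Prop :=
  ∀ x y : V n, y ≠ 0 →
    (∃ ε > 0, ∃ γ v : ℝ → V n, IsGeodesicOn F ε γ v ∧ γ 0 = x ∧ v 0 = y) ∧
    ∀ ε > 0, ∀ γ v : ℝ → V n, IsGeodesicOn F ε γ v → γ 0 = x → v 0 = y →
      HasDerivAt (fun t => distortion F (γ t) (v t)) 0 0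

end Pool.Agent.Helper452.Fins
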