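import Mathlib
import Pool.Agent.Helper452.Fins.Defs

set_option autoImplicit false

open Matrix MeasureTheory

namespace Pool.Agent.Helper452.Fins

/-- squared length of the first component `(y 0, y 1)` for the hyperbolic metric
`e^{2 x1} dx0² + dx1²` -/
noncomputable def A (x y : V 4) : ℝ := Real.exp (2 * x 1) * y 0 ^ 2 + y 1 ^ 2

/-- squared length of the second component `(y 2, y 3)` for the hyperbolic metric
`e^{2 x3} dx2² + dx3²` -/
noncomputable def B (x y : V 4) : ℝ := Real.exp (2 * x 3) * y 2 ^ 2 + y 3 ^ 2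

/-- `F²` -/
noncomputable def L (x y : V 4) : ℝ := 2 * (A x y + B x y) + A x y * B x y / (A x y + B x y)

/-- The Finsler metric. -/
noncomputable def FF (x y : V 4) : ℝ := Real.sqrt (L x y)

theorem A_nonneg (x y : V 4) : 0 ≤ A x y := by unfold A; positivity
theorem B_nonneg (x y : V 4) : 0 ≤ B x y := by unfold B; positivity

theorem AB_pos (x y : V 4) (hy : y ≠ 0) : 0 < A x y + B x y := by
  by_contra h
  apply hy
  have hA := A_nonneg x y
  have hB := B_nonneg x y
  have hA0 : A x y = 0 := by linarith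
  have hB0 : B x y = 0 := by linarith
  unfold A at hA0
  unfold B at hB0
  have e1 : Real.exp (2 * x 1) * y 0 ^ 2 = 0 := by nlinarith [sq_nonneg (y 1), mul_nonneg (Real.exp_pos (2 * x 1)).le (sq_nonneg (y 0))]
  have e2 : Real.exp (2 * x 3) * y 2 ^ 2 = 0 := by nlinarith [sq_nonneg (y 3), mul_nonneg (Real.exp_pos (2 * x 3)).le (sq_nonneg (y 2))]
  have e3 : y 1 ^ 2 = 0 := by linarith
  have e4 : y 3 ^ 2 = 0 := by linarith
  have f1 : y 0 = 0 := by
    rcases mul_eq_zero.1 e1 with h | h
    · exact absurd h (Real.exp_pos _).ne'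
    · exact pow_eq_zero_iff (two_ne_zero) |>.1 h
  have f2 : y 2 = 0 := by
    rcases mul_eq_zero.1 e2 with h | h
    · exact absurd h (Real.exp_pos _).ne'
    · exact pow_eq_zero_iff (two_ne_zero) |>.1 h
  have f3 : y 1 = 0 := pow_eq_zero_iff (two_ne_zero) |>.1 e3
  have f4 : y 3 = 0 := pow_eq_zero_iff (two_ne_zero) |>.1 e4
  funext i
  fin_cases i <;> simp [f1, f2, f3, f4]

theorem A_zero (x : V 4) : A x 0 = 0 := by simp [A]
theorem B_zero (x : V 4) : B x 0 = 0 := by simp [B]
theorem L_zero (x : V 4) : L x 0 = 0 := by simp [L, A_zero, B_zero]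

theorem L_nonneg (x y : V 4) : 0 ≤ L x y := by
  have hA := A_nonneg x y
  have hB := B_nonneg x y
  unfold L
  positivity

theorem sq_FF : sq FF = L := by
  funext x y
  simp only [sq, FF]
  exact Real.sq_sqrt (L_nonneg x y)

/-- `∂A/∂y^i` -/
noncomputable def Ay (i : Fin 4) (x y : V 4) : ℝ :=
  ![2 * (Real.exp (2 * x 1) * y 0), 2 * y 1, 0, 0] i
/-- `∂B/∂y^i` -/
noncomputable def By (i : Fin 4) (x y : V 4) : ℝ :=
  ![0, 0, 2 * (Real.exp (2 * x 3) * y 2), 2 * y 3] i
/-- `∂A/∂x^i` -/
noncomputable def Ax (i : Fin 4) (x y : V 4) : ℝ :=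
  ![0, 2 * Real.exp (2 * x 1) * y 0 ^ 2, 0, 0] i
/-- `∂B/∂x^i` -/
noncomputable def Bx (i : Fin 4) (x y : V 4) : ℝ :=
  ![0, 0, 0, 2 * Real.exp (2 * x 3) * y 2 ^ 2] i

theorem hasA_y (i : Fin 4) (x y : V 4) :
    HasDerivAt (fun s : ℝ => A x (Function.update y i s)) (Ay i x y) (y i) := by
  unfold A Ay
  fin_cases i
  · simp
    have h := ((hasDerivAt_id (y 0)).pow 2).const_mul (Real.exp (2 * x 1))
    refine h.congr_deriv ?_
    simp; ring
  · simp
    have h := ((hasDerivAt_id (y 1)).pow 2)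
    refine h.congr_deriv ?_
    simp
  · simp
    exact hasDerivAt_const _ _
  · simp
    exact hasDerivAt_const _ _

theorem hasB_y (i : Fin 4) (x y : V 4) :
    HasDerivAt (fun s : ℝ => B x (Function.update y i s)) (By i x y) (y i) := by
  unfold B By
  fin_cases i
  · simp
    exact hasDerivAt_const _ _
  · simp
    exact hasDerivAt_const _ _
  · simp
    have h := ((hasDerivAt_id (y 2)).pow 2).const_mul (Real.exp (2 * x 3))
    refine h.congr_deriv ?_
    simp; ring
  · simp
    have h := ((hasDerivAt_id (y 3)).pow 2)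
    refine h.congr_deriv ?_
    simp

theorem hasA_x (i : Fin 4) (x y : V 4) :
    HasDerivAt (fun s : ℝ => A (Function.update x i s) y) (Ax i x y) (x i) := by
  unfold A Ax
  fin_cases i
  · simp
    exact hasDerivAt_const _ _
  · simp
    have h := ((((hasDerivAt_id (x 1)).const_mul 2).exp).mul_const (y 0 ^ 2))
    refine h.congr_deriv ?_
    simp; left; ring
  · simp
    exact hasDerivAt_const _ _
  · simp
    exact hasDerivAt_const _ _

theorem hasB_x (i : Fin 4) (x y : V 4) :
    HasDerivAt (fun s : ℝ => B (Function.update x i s) y) (Bx i x y) (x i) := by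
  unfold B Bx
  fin_cases i
  · simp
    exact hasDerivAt_const _ _
  · simp
    exact hasDerivAt_const _ _
  · simp
    exact hasDerivAt_const _ _
  · simp
    have h := ((((hasDerivAt_id (x 3)).const_mul 2).exp).mul_const (y 2 ^ 2))
    refine h.congr_deriv ?_
    simp; left; ring

/-- `∂L/∂a` -/
noncomputable def la (x y : V 4) : ℝ := 2 + B x y ^ 2 / (A x y + B x y) ^ 2
/-- `∂L/∂b` -/
noncomputable def lb (x y : V 4) : ℝ := 2 + A x y ^ 2 / (A x y + B x y) ^ 2

theorem hasL {a b : ℝ → ℝ} {a' b' s : ℝ} (ha : HasDerivAt a a' s) (hb : HasDerivAt b b' s)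
    (h : a s + b s ≠ 0) :
    HasDerivAt (fun s => 2 * (a s + b s) + a s * b s / (a s + b s))
      ((2 + b s ^ 2 / (a s + b s) ^ 2) * a' + (2 + a s ^ 2 / (a s + b s) ^ 2) * b') s := by
  have h1 := ((ha.add hb).const_mul 2).add ((ha.mul hb).div (ha.add hb) h)
  refine h1.congr_deriv ?_
  simp only [Pi.add_apply, Pi.mul_apply]
  field_simp
  ring

theorem hasla {a b : ℝ → ℝ} {a' b' s : ℝ} (ha : HasDerivAt a a' s) (hb : HasDerivAt b b' s)
    (h : a s + b s ≠ 0) :
    HasDerivAt (fun s => 2 + b s ^ 2 / (a s + b s) ^ 2)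
      (-(2 * b s ^ 2 / (a s + b s) ^ 3) * a' + (2 * a s * b s / (a s + b s) ^ 3) * b') s := by
  have h1 := ((hb.pow 2).div ((ha.add hb).pow 2) (pow_ne_zero 2 h)).const_add 2
  refine h1.congr_deriv ?_
  simp only [Pi.add_apply, Pi.pow_apply]
  field_simp
  ring

theorem haslb {a b : ℝ → ℝ} {a' b' s : ℝ} (ha : HasDerivAt a a' s) (hb : HasDerivAt b b' s)
    (h : a s + b s ≠ 0) :
    HasDerivAt (fun s => 2 + a s ^ 2 / (a s + b s) ^ 2)
      ((2 * a s * b s / (a s + b s) ^ 3) * a' - (2 * a s ^ 2 / (a s + b s) ^ 3) * b') s := by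
  have h1 := ((ha.pow 2).div ((ha.add hb).pow 2) (pow_ne_zero 2 h)).const_add 2
  refine h1.congr_deriv ?_
  simp only [Pi.add_apply, Pi.pow_apply]
  field_simp
  ring

theorem hasL_y (i : Fin 4) (x y : V 4) :
    HasDerivAt (fun s : ℝ => L x (Function.update y i s))
      (la x y * Ay i x y + lb x y * By i x y) (y i) := by
  by_cases hy : y = 0
  · subst hy
    have hA := hasA_y i x 0
    have hB := hasB_y i x 0
    have hAB : ∀ s : ℝ, A x (Function.update (0 : V 4) i s) * B x (Function.update (0 : V 4) i s) = 0 := by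
      intro s
      unfold A B
      fin_cases i <;> simp
    have hfun : (fun s : ℝ => L x (Function.update (0 : V 4) i s)) =
        fun s : ℝ => 2 * (A x (Function.update (0 : V 4) i s) + B x (Function.update (0 : V 4) i s)) := by
      funext s
      unfold L
      rw [hAB s]
      simp
    rw [hfun]
    have h := (hA.add hB).const_mul 2
    refine h.congr_deriv ?_
    have e1 : Ay i x 0 = 0 := by unfold Ay; fin_cases i <;> simp
    have e2 : By i x 0 = 0 := by unfold By; fin_cases i <;> simp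
    rw [e1, e2]; ring
  · have hpos := AB_pos x y hy
    have h := hasL (hasA_y i x y) (hasB_y i x y) (by simpa using hpos.ne')
    refine h.congr_deriv ?_
    simp [la, lb]

theorem hasL_x (i : Fin 4) (x y : V 4) :
    HasDerivAt (fun s : ℝ => L (Function.update x i s) y)
      (la x y * Ax i x y + lb x y * Bx i x y) (x i) := by
  by_cases hy : y = 0
  · subst hy
    have hfun : (fun s : ℝ => L (Function.update x i s) (0 : V 4)) = fun s : ℝ => (0 : ℝ) := by
      funext s
      exact L_zero _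
    rw [hfun]
    have e1 : Ax i x 0 = 0 := by unfold Ax; fin_cases i <;> simp
    have e2 : Bx i x 0 = 0 := by unfold Bx; fin_cases i <;> simp
    rw [e1, e2]
    simpa using hasDerivAt_const (x i) (0 : ℝ)
  · have hpos := AB_pos x y hy
    have h := hasL (hasA_x i x y) (hasB_x i x y) (by simpa using hpos.ne')
    refine h.congr_deriv ?_
    simp [la, lb]

theorem dY_L (j : Fin 4) : dY j (sq FF) = fun x y => la x y * Ay j x y + lb x y * By j x y := by
  funext x y
  rw [sq_FF]
  exact (hasL_y j x y).deriv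

theorem dX_L (j : Fin 4) : dX j (sq FF) = fun x y => la x y * Ax j x y + lb x y * Bx j x y := by
  funext x y
  rw [sq_FF]
  exact (hasL_x j x y).deriv

/-- `∂²L/∂a²` -/
noncomputable def laa (x y : V 4) : ℝ := -(2 * B x y ^ 2 / (A x y + B x y) ^ 3)
/-- `∂²L/∂a∂b` -/
noncomputable def lab (x y : V 4) : ℝ := 2 * A x y * B x y / (A x y + B x y) ^ 3
/-- `∂²L/∂b²` -/
noncomputable def lbb (x y : V 4) : ℝ := -(2 * A x y ^ 2 / (A x y + B x y) ^ 3)

theorem hasla_y (i : Fin 4) (x y : V 4) (hy : y ≠ 0) :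
    HasDerivAt (fun s : ℝ => la x (Function.update y i s))
      (laa x y * Ay i x y + lab x y * By i x y) (y i) := by
  have hpos := AB_pos x y hy
  have h := hasla (hasA_y i x y) (hasB_y i x y) (by simpa using hpos.ne')
  refine h.congr_deriv ?_
  simp [laa, lab]

theorem haslb_y (i : Fin 4) (x y : V 4) (hy : y ≠ 0) :
    HasDerivAt (fun s : ℝ => lb x (Function.update y i s))
      (lab x y * Ay i x y + lbb x y * By i x y) (y i) := by
  have hpos := AB_pos x y hy
  have h := haslb (hasA_y i x y) (hasB_y i x y) (by simpa using hpos.ne')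
  refine h.congr_deriv ?_
  simp [lbb, lab]
  ring

/-- `∂²A/∂y^i∂y^j` -/
noncomputable def Ayy (i j : Fin 4) (x _y : V 4) : ℝ :=
  ![![2 * Real.exp (2 * x 1), 0, 0, 0], ![0, 2, 0, 0], ![0, 0, 0, 0], ![0, 0, 0, 0]] i j
/-- `∂²B/∂y^i∂y^j` -/
noncomputable def Byy (i j : Fin 4) (x _y : V 4) : ℝ :=
  ![![0, 0, 0, 0], ![0, 0, 0, 0], ![0, 0, 2 * Real.exp (2 * x 3), 0], ![0, 0, 0, 2]] i j

theorem hasAy_y (i j : Fin 4) (x y : V 4) :
    HasDerivAt (fun s : ℝ => Ay j x (Function.update y i s)) (Ayy i j x y) (y i) := by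
  unfold Ay Ayy
  fin_cases i <;> fin_cases j <;> simp
  all_goals first
    | exact hasDerivAt_const _ _
    | (have h := ((hasDerivAt_id (y 0)).const_mul (Real.exp (2 * x 1))).const_mul 2
       refine h.congr_deriv ?_
       simp)
    | (have h := (hasDerivAt_id (y 1)).const_mul (2 : ℝ)
       refine h.congr_deriv ?_
       simp)

theorem hasBy_y (i j : Fin 4) (x y : V 4) :
    HasDerivAt (fun s : ℝ => By j x (Function.update y i s)) (Byy i j x y) (y i) := by
  unfold By Byy
  fin_cases i <;> fin_cases j <;> simp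
  all_goals first
    | exact hasDerivAt_const _ _
    | (have h := ((hasDerivAt_id (y 2)).const_mul (Real.exp (2 * x 3))).const_mul 2
       refine h.congr_deriv ?_
       simp)
    | (have h := (hasDerivAt_id (y 3)).const_mul (2 : ℝ)
       refine h.congr_deriv ?_
       simp)

theorem fund_apply (i j : Fin 4) (x y : V 4) (hy : y ≠ 0) :
    fund FF x y i j = (1 / 2) * ((laa x y * Ay i x y + lab x y * By i x y) * Ay j x y
      + la x y * Ayy i j x y + ((lab x y * Ay i x y + lbb x y * By i x y) * By j x y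
      + lb x y * Byy i j x y)) := by
  unfold fund
  rw [Matrix.of_apply]
  congr 1
  rw [dY_L]
  have h := ((hasla_y i x y hy).mul (hasAy_y i j x y)).add
    ((haslb_y i x y hy).mul (hasBy_y i j x y))
  simp only [Function.update_eq_self] at h
  exact h.deriv

end Pool.Agent.Helper452.Fins
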