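import Mathlib
import Pool.Agent.Helper452.Fins.Calc

set_option autoImplicit false

open Matrix MeasureTheory

namespace Pool.Agent.Helper452.Fins

/-- the covector `b α - a β` -/
noncomputable def om (x y : V 4) : V 4 :=
  ![B x y * (Real.exp (2 * x 1) * y 0), B x y * y 1,
    -(A x y * (Real.exp (2 * x 3) * y 2)), -(A x y * y 3)]

noncomputable def ka (x y : V 4) : ℝ := 4 / (A x y + B x y) ^ 3

noncomputable def dg (x y : V 4) : V 4 :=
  ![la x y * Real.exp (2 * x 1), la x y, lb x y * Real.exp (2 * x 3), lb x y]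

theorem fund_eq (x y : V 4) (hy : y ≠ 0) :
    fund FF x y = Matrix.of fun i j =>
      (if i = j then dg x y i else 0) - ka x y * (om x y i * om x y j) := by
  have hpos := AB_pos x y hy
  have hne := hpos.ne'
  ext i j
  rw [fund_apply i j x y hy, Matrix.of_apply]
  unfold om ka dg Ay By Ayy Byy laa lab lbb
  fin_cases i <;> fin_cases j <;> simp <;> field_simp <;> ring

theorem gy_eq (x y u w : V 4) (hy : y ≠ 0) :
    gy FF x y u w = la x y * (Real.exp (2 * x 1) * u 0 * w 0 + u 1 * w 1)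
      + lb x y * (Real.exp (2 * x 3) * u 2 * w 2 + u 3 * w 3)
      - ka x y * ((om x y ⬝ᵥ u) * (om x y ⬝ᵥ w)) := by
  unfold gy
  rw [fund_eq x y hy]
  simp only [dotProduct, mulVec, Fin.sum_univ_four, Matrix.of_apply, dg]
  simp
  ring

theorem pos_core (a b p q al be : ℝ) (hA : 0 ≤ a) (hB : 0 ≤ b) (hpos : 0 < a + b)
    (hAw : 0 ≤ p) (hBw : 0 ≤ q) (hw2 : 0 < p + q) (h1 : al ^ 2 ≤ a * p) (h2 : be ^ 2 ≤ b * q) :
    0 < (2 + b ^ 2 / (a + b) ^ 2) * p + (2 + a ^ 2 / (a + b) ^ 2) * q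
        - 4 / (a + b) ^ 3 * ((b * al - a * be) * (b * al - a * be)) := by
  have key : (2 + b ^ 2 / (a + b) ^ 2) * p + (2 + a ^ 2 / (a + b) ^ 2) * q
      - 4 / (a + b) ^ 3 * ((b * al - a * be) * (b * al - a * be))
      = ((2 * (a + b) ^ 3 + b ^ 2 * (a + b)) * p + (2 * (a + b) ^ 3 + a ^ 2 * (a + b)) * q
        - 4 * (b * al - a * be) ^ 2) / (a + b) ^ 3 := by
    field_simp
  rw [key]
  apply div_pos _ (by positivity)
  have h3 : (b * al - a * be) ^ 2 ≤ 2 * a * b ^ 2 * p + 2 * a ^ 2 * b * q := by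
    have i1 : b ^ 2 * al ^ 2 ≤ b ^ 2 * (a * p) := mul_le_mul_of_nonneg_left h1 (sq_nonneg b)
    have i2 : a ^ 2 * be ^ 2 ≤ a ^ 2 * (b * q) := mul_le_mul_of_nonneg_left h2 (sq_nonneg a)
    have i3 := sq_nonneg (b * al + a * be)
    have e : (b * al - a * be) ^ 2 + (b * al + a * be) ^ 2 = 2 * (b ^ 2 * al ^ 2) + 2 * (a ^ 2 * be ^ 2) := by ring
    linarith
  have c1 : 0 < (a + b) ^ 3 - 4 * (a * b ^ 2) := by
    rcases hB.eq_or_lt with hb0 | hb0
    · rw [← hb0] at hpos ⊢
      have : 0 < a := by linarith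
      ring_nf
      positivity
    · have e : (a + b) ^ 3 - 4 * (a * b ^ 2)
        = a ^ 3 + b * (2 * a ^ 2 + (a - b / 2) ^ 2 + 3 / 4 * b ^ 2) := by ring
      rw [e]
      positivity
  have c2 : 0 < (a + b) ^ 3 - 4 * (a ^ 2 * b) := by
    rcases hA.eq_or_lt with ha0 | ha0
    · rw [← ha0] at hpos ⊢
      have : 0 < b := by linarith
      ring_nf
      positivity
    · have e : (a + b) ^ 3 - 4 * (a ^ 2 * b)
        = b ^ 3 + a * (2 * b ^ 2 + (b - a / 2) ^ 2 + 3 / 4 * a ^ 2) := by ring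
      rw [e]
      positivity
  have d1 : 0 ≤ b ^ 2 * (a + b) * p := by positivity
  have d2 : 0 ≤ a ^ 2 * (a + b) * q := by positivity
  have d3 : 0 < ((a + b) ^ 3 - 4 * (a * b ^ 2)) * p + ((a + b) ^ 3 - 4 * (a ^ 2 * b)) * q := by
    rcases hAw.eq_or_lt with hp0 | hp0
    · have hq0 : 0 < q := by rw [← hp0] at hw2; linarith
      have := mul_pos c2 hq0
      have := mul_nonneg c1.le hAw
      linarith
    · have := mul_pos c1 hp0
      have := mul_nonneg c2.le hBw
      linarith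
  have e : (2 * (a + b) ^ 3 + b ^ 2 * (a + b)) * p + (2 * (a + b) ^ 3 + a ^ 2 * (a + b)) * q
        - 4 * (b * al - a * be) ^ 2
      = b ^ 2 * (a + b) * p + a ^ 2 * (a + b) * q
        + 2 * (((a + b) ^ 3 - 4 * (a * b ^ 2)) * p + ((a + b) ^ 3 - 4 * (a ^ 2 * b)) * q)
        + 4 * ((2 * a * b ^ 2 * p + 2 * a ^ 2 * b * q) - (b * al - a * be) ^ 2) := by ring
  rw [e]
  linarith

theorem fund_posDef (x y : V 4) (hy : y ≠ 0) : (fund FF x y).PosDef := by
  refine PosDef.of_dotProduct_mulVec_pos ?_ ?_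
  · rw [fund_eq x y hy]
    ext i j
    simp only [Matrix.conjTranspose_apply, Matrix.of_apply, star_trivial]
    by_cases h : i = j
    · subst h; rfl
    · rw [if_neg h, if_neg (fun h' => h h'.symm)]
      ring
  · intro w hw
    have h := gy_eq x y w w hy
    unfold gy at h
    rw [star_trivial, h]
    have h1 : (Real.exp (2 * x 1) * y 0 * w 0 + y 1 * w 1) ^ 2 ≤ A x y * A x w := by
      have e : A x y * A x w - (Real.exp (2 * x 1) * y 0 * w 0 + y 1 * w 1) ^ 2
          = Real.exp (2 * x 1) * (y 0 * w 1 - y 1 * w 0) ^ 2 := by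
        unfold A; ring
      have : 0 ≤ Real.exp (2 * x 1) * (y 0 * w 1 - y 1 * w 0) ^ 2 := by positivity
      linarith
    have h2 : (Real.exp (2 * x 3) * y 2 * w 2 + y 3 * w 3) ^ 2 ≤ B x y * B x w := by
      have e : B x y * B x w - (Real.exp (2 * x 3) * y 2 * w 2 + y 3 * w 3) ^ 2
          = Real.exp (2 * x 3) * (y 2 * w 3 - y 3 * w 2) ^ 2 := by
        unfold B; ring
      have : 0 ≤ Real.exp (2 * x 3) * (y 2 * w 3 - y 3 * w 2) ^ 2 := by positivity
      linarith
    have hom : om x y ⬝ᵥ w = B x y * (Real.exp (2 * x 1) * y 0 * w 0 + y 1 * w 1)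
        - A x y * (Real.exp (2 * x 3) * y 2 * w 2 + y 3 * w 3) := by
      simp only [dotProduct, Fin.sum_univ_four, om]
      simp
      ring
    have hpw : Real.exp (2 * x 1) * w 0 * w 0 + w 1 * w 1 = A x w := by unfold A; ring
    have hqw : Real.exp (2 * x 3) * w 2 * w 2 + w 3 * w 3 = B x w := by unfold B; ring
    rw [hom, hpw, hqw]
    exact pos_core (A x y) (B x y) (A x w) (B x w) _ _ (A_nonneg x y) (B_nonneg x y)
      (AB_pos x y hy) (A_nonneg x w) (B_nonneg x w) (AB_pos x w hw) h1 h2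

/-- the explicit spray coefficients of `H² × H²` -/
noncomputable def Gh (i : Fin 4) (x y : V 4) : ℝ :=
  ![y 0 * y 1, -(1 / 2) * (Real.exp (2 * x 1) * y 0 ^ 2), y 2 * y 3,
    -(1 / 2) * (Real.exp (2 * x 3) * y 2 ^ 2)] i

/-- `∂²A/∂x^k∂y^i` -/
noncomputable def Axy (i k : Fin 4) (x y : V 4) : ℝ :=
  if k = 1 then (if i = 0 then 4 * Real.exp (2 * x 1) * y 0 else 0) else 0
/-- `∂²B/∂x^k∂y^i` -/
noncomputable def Bxy (i k : Fin 4) (x y : V 4) : ℝ :=
  if k = 3 then (if i = 2 then 4 * Real.exp (2 * x 3) * y 2 else 0) else 0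

theorem hasAx_y (i k : Fin 4) (x y : V 4) :
    HasDerivAt (fun s : ℝ => Ax k x (Function.update y i s)) (Axy i k x y) (y i) := by
  unfold Ax Axy
  fin_cases i <;> fin_cases k <;> simp
  all_goals first
    | exact hasDerivAt_const _ _
    | (have h := (((hasDerivAt_id (y 0)).pow 2).const_mul (2 * Real.exp (2 * x 1)))
       refine h.congr_deriv ?_
       simp
       ring)

theorem hasBx_y (i k : Fin 4) (x y : V 4) :
    HasDerivAt (fun s : ℝ => Bx k x (Function.update y i s)) (Bxy i k x y) (y i) := by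
  unfold Bx Bxy
  fin_cases i <;> fin_cases k <;> simp
  all_goals first
    | exact hasDerivAt_const _ _
    | (have h := (((hasDerivAt_id (y 2)).pow 2).const_mul (2 * Real.exp (2 * x 3)))
       refine h.congr_deriv ?_
       simp
       ring)

theorem dYdX_L (l k : Fin 4) (x y : V 4) (hy : y ≠ 0) :
    dY l (dX k (sq FF)) x y =
      (laa x y * Ay l x y + lab x y * By l x y) * Ax k x y + la x y * Axy l k x y
      + ((lab x y * Ay l x y + lbb x y * By l x y) * Bx k x y + lb x y * Bxy l k x y) := by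
  rw [dX_L]
  have h := ((hasla_y l x y hy).mul (hasAx_y l k x y)).add
    ((haslb_y l x y hy).mul (hasBx_y l k x y))
  simp only [Function.update_eq_self] at h
  exact h.deriv

theorem rhs_eq (x y : V 4) (hy : y ≠ 0) (l : Fin 4) :
    (∑ k, dY l (dX k (sq FF)) x y * y k) - dX l (sq FF) x y
      = 4 * (fund FF x y *ᵥ (fun i => Gh i x y)) l := by
  have hpos := AB_pos x y hy
  have hne := hpos.ne'
  rw [fund_eq x y hy]
  simp only [mulVec, dotProduct, Fin.sum_univ_four, Matrix.of_apply]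
  rw [dYdX_L l 0 x y hy, dYdX_L l 1 x y hy, dYdX_L l 2 x y hy, dYdX_L l 3 x y hy, dX_L]
  unfold om ka dg Ay By Ax Bx Axy Bxy laa lab lbb Gh
  fin_cases l <;> simp <;> field_simp <;> ring

theorem spray_eq (i : Fin 4) : spray FF i = Gh i := by
  funext x y
  by_cases hy : y = 0
  · subst hy
    unfold spray
    have h1 : ∀ l, dX l (sq FF) x 0 = 0 := by
      intro l
      rw [dX_L]
      unfold Ax Bx
      fin_cases l <;> simp
    simp [h1, Gh]
    fin_cases i <;> simp
  · unfold spray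
    have hu : IsUnit (fund FF x y).det := (Matrix.isUnit_iff_isUnit_det _).1 (fund_posDef x y hy).isUnit
    have h1 : ∀ l, (∑ k, dY l (dX k (sq FF)) x y * y k) - dX l (sq FF) x y
      = 4 * (fund FF x y *ᵥ (fun i => Gh i x y)) l := rhs_eq x y hy
    simp only [h1]
    have h2 : ∑ l, (fund FF x y)⁻¹ i l * (4 * (fund FF x y *ᵥ (fun i => Gh i x y)) l)
        = 4 * ((fund FF x y)⁻¹ *ᵥ (fund FF x y *ᵥ (fun i => Gh i x y))) i := by
      simp only [mulVec, dotProduct, Finset.mul_sum]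
      refine Finset.sum_congr rfl fun l _ => Finset.sum_congr rfl fun j _ => by ring
    rw [h2, Matrix.mulVec_mulVec, Matrix.nonsing_inv_mul _ hu, Matrix.one_mulVec]
    ring

end Pool.Agent.Helper452.Fins
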