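import Mathlib
import Pool.Agent.Helper452.Fins.Calc2

set_option autoImplicit false

open Matrix MeasureTheory

namespace Pool.Agent.Helper452.Fins

/-- `∂G^i/∂y^k` -/
noncomputable def GY (k i : Fin 4) (x y : V 4) : ℝ :=
  ![![y 1, -(Real.exp (2 * x 1) * y 0), 0, 0], ![y 0, 0, 0, 0],
    ![0, 0, y 3, -(Real.exp (2 * x 3) * y 2)], ![0, 0, y 2, 0]] k i
/-- `∂G^i/∂x^k` -/
noncomputable def GX (k i : Fin 4) (x y : V 4) : ℝ :=
  ![![0, 0, 0, 0], ![0, -(Real.exp (2 * x 1) * y 0 ^ 2), 0, 0],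
    ![0, 0, 0, 0], ![0, 0, 0, -(Real.exp (2 * x 3) * y 2 ^ 2)]] k i

/-- `∂²G^i/∂x^j∂y^k` -/
noncomputable def GXY (j k i : Fin 4) (x y : V 4) : ℝ :=
  if j = 1 ∧ k = 0 ∧ i = 1 then -(2 * Real.exp (2 * x 1) * y 0) else
  if j = 3 ∧ k = 2 ∧ i = 3 then -(2 * Real.exp (2 * x 3) * y 2) else 0

/-- `∂²G^i/∂y^j∂y^k` -/
noncomputable def GYY (j k i : Fin 4) (x _y : V 4) : ℝ :=
  if j = 0 ∧ k = 0 ∧ i = 1 then -(Real.exp (2 * x 1)) else
  if j = 1 ∧ k = 0 ∧ i = 0 then 1 else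
  if j = 0 ∧ k = 1 ∧ i = 0 then 1 else
  if j = 2 ∧ k = 2 ∧ i = 3 then -(Real.exp (2 * x 3)) else
  if j = 3 ∧ k = 2 ∧ i = 2 then 1 else
  if j = 2 ∧ k = 3 ∧ i = 2 then 1 else 0

theorem dexp (t : ℝ) : deriv (fun s : ℝ => Real.exp (2 * s)) t = 2 * Real.exp (2 * t) := by
  have h := (((hasDerivAt_id t).const_mul 2).exp).deriv
  simp only [id] at h
  rw [h]; ring

theorem dY_G (k i : Fin 4) : dY k (Gh i) = GY k i := by
  funext x y
  unfold dY Gh GY
  fin_cases k <;> fin_cases i <;> simp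
  all_goals ring

theorem dX_G (k i : Fin 4) : dX k (Gh i) = GX k i := by
  funext x y
  unfold dX Gh GX
  fin_cases k <;> fin_cases i <;> simp [dexp]
  all_goals ring

theorem dX_GY (j k i : Fin 4) : dX j (GY k i) = GXY j k i := by
  funext x y
  unfold dX GY GXY
  fin_cases j <;> fin_cases k <;> fin_cases i <;> simp [dexp]

theorem dY_GY (j k i : Fin 4) : dY j (GY k i) = GYY j k i := by
  funext x y
  unfold dY GY GYY
  fin_cases j <;> fin_cases k <;> fin_cases i <;> simp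

/-- explicit Riemann curvature of `H² × H²` -/
noncomputable def Rm (x y : V 4) : Matrix (Fin 4) (Fin 4) ℝ :=
  !![-(y 1 ^ 2), y 0 * y 1, 0, 0;
     Real.exp (2 * x 1) * (y 0 * y 1), -(Real.exp (2 * x 1) * y 0 ^ 2), 0, 0;
     0, 0, -(y 3 ^ 2), y 2 * y 3;
     0, 0, Real.exp (2 * x 3) * (y 2 * y 3), -(Real.exp (2 * x 3) * y 2 ^ 2)]

theorem riem_eq (x y : V 4) : riem FF x y = Rm x y := by
  ext i k
  unfold riem
  rw [Matrix.of_apply]
  have h1 : ∀ i, spray FF i = Gh i := spray_eq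
  simp only [h1, dY_G, dX_G, dX_GY, dY_GY, Fin.sum_univ_four]
  unfold Rm GX GXY GYY GY Gh
  fin_cases i <;> fin_cases k <;> simp <;> ring

theorem riem_trace (x y : V 4) : (riem FF x y).trace = -(A x y + B x y) := by
  rw [riem_eq]
  unfold Rm A B
  simp [Matrix.trace, Fin.sum_univ_four]
  ring

theorem L_mul_om (x y : V 4) : om x y ⬝ᵥ y = 0 := by
  simp only [dotProduct, Fin.sum_univ_four, om]
  unfold A B
  simp
  ring

theorem gy_self (x y : V 4) (hy : y ≠ 0) : gy FF x y y y = FF x y ^ 2 := by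
  have hpos := AB_pos x y hy
  have hne := hpos.ne'
  rw [gy_eq x y y y hy, L_mul_om]
  have h1 : Real.exp (2 * x 1) * y 0 * y 0 + y 1 * y 1 = A x y := by unfold A; ring
  have h2 : Real.exp (2 * x 3) * y 2 * y 2 + y 3 * y 3 = B x y := by unfold B; ring
  rw [h1, h2]
  have h3 : FF x y ^ 2 = L x y := congrFun (congrFun sq_FF x) y
  rw [h3]
  unfold la lb L
  field_simp
  ring

theorem riem_mulVec_self (x y : V 4) : riem FF x y *ᵥ y = 0 := by
  rw [riem_eq]
  unfold Rm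
  ext i
  simp only [mulVec, dotProduct, Fin.sum_univ_four]
  fin_cases i <;> simp <;> ring

theorem FF_pos (x y : V 4) (hy : y ≠ 0) : 0 < FF x y := by
  have hpos := AB_pos x y hy
  have hA := A_nonneg x y
  have hB := B_nonneg x y
  unfold FF
  apply Real.sqrt_pos.2
  unfold L
  have : 0 ≤ A x y * B x y / (A x y + B x y) := by positivity
  linarith

/-- general linear algebra: the sum of the flag curvatures in a frame is the trace of `R_y` -/
theorem frame_trace {m : ℕ} (G R : Matrix (Fin (m + 1)) (Fin (m + 1)) ℝ) (y : V (m + 1)) (c : ℝ)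
    (hc : 0 < c) (hyy : y ⬝ᵥ (G *ᵥ y) = c ^ 2) (hR : R *ᵥ y = 0) (hG : G.IsSymm)
    (e : Fin m → V (m + 1)) (h1 : ∀ i, y ⬝ᵥ (G *ᵥ e i) = 0)
    (h2 : ∀ i j, e i ⬝ᵥ (G *ᵥ e j) = if i = j then 1 else 0) :
    ∑ i, (R *ᵥ e i) ⬝ᵥ (G *ᵥ e i) = R.trace := by
  let p : Fin (m + 1) → V (m + 1) := Fin.cons (c⁻¹ • y) e
  let P : Matrix (Fin (m + 1)) (Fin (m + 1)) ℝ := Matrix.of fun i j => p j i
  have hsym : ∀ u w : V (m + 1), u ⬝ᵥ (G *ᵥ w) = w ⬝ᵥ (G *ᵥ u) := by
    intro u w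
    rw [Matrix.dotProduct_mulVec, ← Matrix.mulVec_transpose, hG.eq, dotProduct_comm]
  have hp : ∀ i j, p i ⬝ᵥ (G *ᵥ p j) = if i = j then 1 else 0 := by
    intro i j
    refine Fin.cases ?_ (fun i => ?_) i <;> refine Fin.cases ?_ (fun j => ?_) j
    · simp only [p, Fin.cons_zero, Matrix.mulVec_smul, smul_dotProduct, dotProduct_smul, hyy]
      simp
      field_simp
    · simp only [p, Fin.cons_zero, Fin.cons_succ, smul_dotProduct, h1]
      simp [(Fin.succ_ne_zero j).symm]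
    · simp only [p, Fin.cons_zero, Fin.cons_succ, Matrix.mulVec_smul, dotProduct_smul]
      rw [hsym, h1]
      simp
    · simp only [p, Fin.cons_succ, h2, Fin.succ_inj]
  have hPGP : Pᵀ * (G * P) = 1 := by
    ext i j
    have : (Pᵀ * (G * P)) i j = p i ⬝ᵥ (G *ᵥ p j) := by
      simp only [Matrix.mul_apply, Matrix.transpose_apply, dotProduct, mulVec, P, Matrix.of_apply]
    rw [this, hp, Matrix.one_apply]
  have hPGP2 : (G * P) * Pᵀ = 1 := mul_eq_one_comm.1 hPGP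
  have htr : ∑ i, (R *ᵥ p i) ⬝ᵥ (G *ᵥ p i) = R.trace := by
    have e1 : ∑ i, (R *ᵥ p i) ⬝ᵥ (G *ᵥ p i) = ((R * P)ᵀ * (G * P)).trace := by
      simp only [Matrix.trace, Matrix.diag_apply, Matrix.mul_apply, Matrix.transpose_apply,
        dotProduct, mulVec, P, Matrix.of_apply]
    rw [e1, Matrix.transpose_mul, Matrix.trace_mul_comm, ← Matrix.mul_assoc, hPGP2,
      Matrix.one_mul, Matrix.trace_transpose]
  rw [← htr, Fin.sum_univ_succ]
  simp only [p, Fin.cons_zero, Fin.cons_succ, Matrix.mulVec_smul, hR]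
  simp

theorem fund_symm (x y : V 4) (hy : y ≠ 0) : (fund FF x y).IsSymm := by
  have h := (fund_posDef x y hy).isHermitian
  unfold Matrix.IsHermitian at h
  rwa [Matrix.conjTranspose_eq_transpose_of_trivial] at h

theorem ricci_frame (x y : V 4) (hy : y ≠ 0) (e : Fin 3 → V 4) (he : IsFrame FF x y e) :
    ricciIn FF x y e = -(A x y + B x y) := by
  have hF := FF_pos x y hy
  obtain ⟨h1, h2⟩ := he
  unfold ricciIn
  have h3 : ∀ i, flagK FF x y (e i) = (gy FF x y (riem FF x y *ᵥ e i) (e i)) / FF x y ^ 2 := by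
    intro i
    unfold flagK
    rw [h1 i, h2 i i, gy_self x y hy]
    simp
  simp only [h3]
  rw [← Finset.sum_div, mul_div_cancel₀ _ (pow_ne_zero 2 hF.ne')]
  have h4 := frame_trace (fund FF x y) (riem FF x y) y (FF x y) hF (gy_self x y hy)
    (riem_mulVec_self x y) (fund_symm x y hy) e h1 h2
  unfold gy
  rw [h4, riem_trace]

end Pool.Agent.Helper452.Fins
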