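import Mathlib
import Pool.Agent.Helper452.Fins.Calc3

set_option autoImplicit false

open Matrix MeasureTheory

namespace Pool.Agent.Helper452.Fins

theorem det_core (d w : Fin 4 → ℝ) (c : ℝ) :
    (Matrix.of fun i j : Fin 4 => (if i = j then d i else 0) - c * (w i * w j)).det
      = d 0 * d 1 * d 2 * d 3 - c * (w 0 ^ 2 * d 1 * d 2 * d 3 + w 1 ^ 2 * d 0 * d 2 * d 3
        + w 2 ^ 2 * d 0 * d 1 * d 3 + w 3 ^ 2 * d 0 * d 1 * d 2) := by
  rw [Matrix.det_succ_row_zero]
  simp [Fin.sum_univ_succ, Matrix.det_fin_three, Fin.succAbove, Matrix.submatrix_apply]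
  ring

/-- the factor of `det g` that depends on `(A, B)` only -/
noncomputable def Psi (a b : ℝ) : ℝ :=
  (2 + b ^ 2 / (a + b) ^ 2) * (2 + a ^ 2 / (a + b) ^ 2) *
    ((2 + b ^ 2 / (a + b) ^ 2) * (2 + a ^ 2 / (a + b) ^ 2)
      - 4 / (a + b) ^ 3 * (b ^ 2 * a * (2 + a ^ 2 / (a + b) ^ 2)
        + a ^ 2 * b * (2 + b ^ 2 / (a + b) ^ 2)))

theorem det_fund (x y : V 4) (hy : y ≠ 0) :
    (fund FF x y).det = (Real.exp (x 1 + x 3)) ^ 2 * Psi (A x y) (B x y) := by
  rw [fund_eq x y hy, det_core]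
  have h1 : la x y = 2 + B x y ^ 2 / (A x y + B x y) ^ 2 := rfl
  have h2 : lb x y = 2 + A x y ^ 2 / (A x y + B x y) ^ 2 := rfl
  have h3 : ka x y = 4 / (A x y + B x y) ^ 3 := rfl
  have hE : (Real.exp (x 1 + x 3)) ^ 2 = Real.exp (2 * x 1) * Real.exp (2 * x 3) := by
    rw [← Real.exp_nat_mul, ← Real.exp_add]
    congr 1
    push_cast
    ring
  unfold Psi
  rw [← h1, ← h2, ← h3, hE]
  have hA : A x y = Real.exp (2 * x 1) * y 0 ^ 2 + y 1 ^ 2 := rfl
  have hB : B x y = Real.exp (2 * x 3) * y 2 ^ 2 + y 3 ^ 2 := rfl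
  have e0 : dg x y 0 = la x y * Real.exp (2 * x 1) := rfl
  have e1 : dg x y 1 = la x y := rfl
  have e2 : dg x y 2 = lb x y * Real.exp (2 * x 3) := rfl
  have e3 : dg x y 3 = lb x y := rfl
  have f0 : om x y 0 = B x y * (Real.exp (2 * x 1) * y 0) := rfl
  have f1 : om x y 1 = B x y * y 1 := rfl
  have f2 : om x y 2 = -(A x y * (Real.exp (2 * x 3) * y 2)) := rfl
  have f3 : om x y 3 = -(A x y * y 3) := rfl
  rw [e0, e1, e2, e3, f0, f1, f2, f3]
  generalize la x y = p
  generalize lb x y = q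
  generalize ka x y = c
  have g1 : (B x y * (Real.exp (2 * x 1) * y 0)) ^ 2 * p * (q * Real.exp (2 * x 3)) * q
      + (B x y * y 1) ^ 2 * (p * Real.exp (2 * x 1)) * (q * Real.exp (2 * x 3)) * q
      = Real.exp (2 * x 1) * Real.exp (2 * x 3) * p * q ^ 2 * B x y ^ 2 * A x y := by
    rw [hA]; ring
  have g2 : (-(A x y * (Real.exp (2 * x 3) * y 2))) ^ 2 * (p * Real.exp (2 * x 1)) * p * q
      + (-(A x y * y 3)) ^ 2 * (p * Real.exp (2 * x 1)) * p * (q * Real.exp (2 * x 3))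
      = Real.exp (2 * x 1) * Real.exp (2 * x 3) * p ^ 2 * q * A x y ^ 2 * B x y := by
    rw [hB]; ring
  linear_combination (-c) * g1 - c * g2

theorem exp_sq (t : ℝ) : Real.exp (2 * t) = Real.exp t ^ 2 := by
  rw [← Real.exp_nat_mul]; norm_num

/-- scaling -/
noncomputable def sc (x y : V 4) : V 4 :=
  ![Real.exp (x 1) * y 0, y 1, Real.exp (x 3) * y 2, y 3]

theorem FF_sc (x y : V 4) : FF 0 (sc x y) = FF x y := by
  have h1 : A 0 (sc x y) = A x y := by
    unfold A sc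
    simp
    rw [exp_sq]; ring
  have h2 : B 0 (sc x y) = B x y := by
    unfold B sc
    simp
    rw [exp_sq]; ring
  unfold FF L
  rw [h1, h2]

theorem vol_sc (x : V 4) :
    volume {y : V 4 | FF x y < 1}
      = ENNReal.ofReal (Real.exp (x 1 + x 3))⁻¹ * volume {y : V 4 | FF 0 y < 1} := by
  let D : Matrix (Fin 4) (Fin 4) ℝ := Matrix.diagonal ![Real.exp (x 1), 1, Real.exp (x 3), 1]
  have hdet : LinearMap.det (Matrix.toLin' D) = Real.exp (x 1 + x 3) := by
    rw [LinearMap.det_toLin', Matrix.det_diagonal, Fin.prod_univ_four, Real.exp_add]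
    simp
  have hne : LinearMap.det (Matrix.toLin' D) ≠ 0 := by rw [hdet]; exact (Real.exp_pos _).ne'
  have h := Measure.addHaar_preimage_linearMap (μ := (volume : Measure (V 4))) hne
    {y : V 4 | FF 0 y < 1}
  have hset : (Matrix.toLin' D) ⁻¹' {y : V 4 | FF 0 y < 1} = {y : V 4 | FF x y < 1} := by
    ext y
    have e : Matrix.toLin' D y = sc x y := by
      rw [Matrix.toLin'_apply]
      ext i
      simp only [D, Matrix.mulVec_diagonal, sc]
      fin_cases i <;> simp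
    simp only [Set.mem_preimage, Set.mem_ofPred_eq, e, FF_sc]
  rw [hset, hdet, abs_of_pos (by positivity)] at h
  exact h

theorem sigma_eq (x : V 4) : sigmaBH FF x = Real.exp (x 1 + x 3) * sigmaBH FF 0 := by
  unfold sigmaBH
  rw [vol_sc x, ENNReal.toReal_mul, ENNReal.toReal_ofReal (by positivity)]
  have hE := Real.exp_pos (x 1 + x 3)
  by_cases h : (volume {y : V 4 | FF 0 y < 1}).toReal = 0
  · rw [h]; simp
  · field_simp

theorem distortion_eq (x y : V 4) (hy : y ≠ 0) :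
    distortion FF x y = Real.log (Real.sqrt (Psi (A x y) (B x y)) / sigmaBH FF 0) := by
  unfold distortion
  rw [det_fund x y hy, sigma_eq x, Real.sqrt_mul (sq_nonneg _), Real.sqrt_sq (Real.exp_pos _).le]
  rw [mul_div_mul_left _ _ (Real.exp_pos _).ne']

end Pool.Agent.Helper452.Fins
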