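import Mathlib
import Pool.Agent.Helper452.Fins.Calc4

set_option autoImplicit false

open Matrix MeasureTheory

namespace Pool.Agent.Helper452.Fins

theorem contDiff_A : ContDiff ℝ (⊤ : ℕ∞) (fun p : V 4 × V 4 => A p.1 p.2) := by
  unfold A
  fun_prop

theorem contDiff_B : ContDiff ℝ (⊤ : ℕ∞) (fun p : V 4 × V 4 => B p.1 p.2) := by
  unfold B
  fun_prop

theorem L_pos (x y : V 4) (hy : y ≠ 0) : 0 < L x y := by
  have h := FF_pos x y hy
  unfold FF at h
  exact Real.sqrt_pos.1 h

theorem smooth_FF : ContDiffOn ℝ (⊤ : ℕ∞) (fun p : V 4 × V 4 => FF p.1 p.2) {p | p.2 ≠ 0} := by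
  intro p hp
  apply ContDiffAt.contDiffWithinAt
  have hp' : p.2 ≠ 0 := hp
  have hne : A p.1 p.2 + B p.1 p.2 ≠ 0 := (AB_pos p.1 p.2 hp').ne'
  have hA := contDiff_A.contDiffAt (x := p)
  have hB := contDiff_B.contDiffAt (x := p)
  have hL : ContDiffAt ℝ (⊤ : ℕ∞) (fun p : V 4 × V 4 => L p.1 p.2) p :=
    ((contDiffAt_const).mul (hA.add hB)).add ((hA.mul hB).div (hA.add hB) hne)
  exact ContDiffAt.sqrt (f := fun p : V 4 × V 4 => L p.1 p.2) hL (L_pos p.1 p.2 hp').ne'

theorem A_smul (x y : V 4) (c : ℝ) : A x (c • y) = c ^ 2 * A x y := by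
  unfold A; simp; ring
theorem B_smul (x y : V 4) (c : ℝ) : B x (c • y) = c ^ 2 * B x y := by
  unfold B; simp; ring

theorem homog_FF (x y : V 4) (c : ℝ) (hc : 0 ≤ c) : FF x (c • y) = c * FF x y := by
  unfold FF
  have h : L x (c • y) = c ^ 2 * L x y := by
    unfold L
    rw [A_smul, B_smul]
    by_cases h0 : c = 0
    · subst h0; simp
    · by_cases h1 : A x y + B x y = 0
      · rw [← mul_add, h1]; simp
      · field_simp
  rw [h, Real.sqrt_mul (sq_nonneg c), Real.sqrt_sq hc]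

theorem isFinsler_FF : IsFinsler FF where
  nonneg := fun x y => Real.sqrt_nonneg _
  smooth := smooth_FF
  homog := homog_FF
  pos := fund_posDef

/-- diagonal affine maps -/
noncomputable def affE (d c : V 4) (hd : ∀ i, d i ≠ 0) : V 4 ≃ V 4 where
  toFun := fun x i => d i * x i + c i
  invFun := fun x i => (d i)⁻¹ * (x i - c i)
  left_inv := by
    intro x; funext i
    have := hd i
    field_simp
    ring
  right_inv := by
    intro x; funext i
    have := hd i
    field_simp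
    ring

theorem affE_fderiv (d c : V 4) (hd : ∀ i, d i ≠ 0) (x y : V 4) :
    fderiv ℝ (affE d c hd) x y = fun i => d i * y i := by
  have h : HasFDerivAt (fun x : V 4 => (fun i => d i * x i + c i : V 4))
      (ContinuousLinearMap.pi fun i => d i • (ContinuousLinearMap.proj (R := ℝ) (φ := fun _ : Fin 4 => ℝ) i)) x := by
    rw [hasFDerivAt_pi]
    intro i
    have h1 : HasFDerivAt (fun x : V 4 => x i) (ContinuousLinearMap.proj (R := ℝ) (φ := fun _ : Fin 4 => ℝ) i) x :=
      hasFDerivAt_apply i x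
    exact (h1.const_mul (d i)).add_const (c i)
  have h2 : fderiv ℝ (affE d c hd) x = _ := h.fderiv
  rw [h2]
  funext i
  simp

theorem homogeneous_FF : IsHomogeneous FF := by
  intro p q
  let s : ℝ := q 1 - p 1
  let t : ℝ := q 3 - p 3
  let d : V 4 := ![Real.exp (-s), 1, Real.exp (-t), 1]
  let c : V 4 := fun i => q i - d i * p i
  have hd : ∀ i, d i ≠ 0 := by
    intro i
    fin_cases i <;> simp [d]
  refine ⟨affE d c hd, ?_, ?_, ?_, ?_⟩
  · show ContDiff ℝ (⊤ : ℕ∞) (fun x : V 4 => (fun i => d i * x i + c i : V 4))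
    fun_prop
  · show ContDiff ℝ (⊤ : ℕ∞) (fun x : V 4 => (fun i => (d i)⁻¹ * (x i - c i) : V 4))
    fun_prop
  · intro x y
    rw [affE_fderiv]
    have e1 : (affE d c hd x) 1 = x 1 + s := by
      show d 1 * x 1 + (q 1 - d 1 * p 1) = _
      simp [d, s]
    have e3 : (affE d c hd x) 3 = x 3 + t := by
      show d 3 * x 3 + (q 3 - d 3 * p 3) = _
      simp [d, t]
    have hA : A (affE d c hd x) (fun i => d i * y i) = A x y := by
      unfold A
      rw [e1]
      have : Real.exp (2 * (x 1 + s)) = Real.exp (2 * x 1) * Real.exp s ^ 2 := by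
        rw [← exp_sq, ← Real.exp_add]; congr 1; ring
      rw [this]
      have h2 : Real.exp s * Real.exp (-s) = 1 := by rw [← Real.exp_add]; simp
      have h3 : d 0 = Real.exp (-s) := rfl
      have h4 : d 1 = 1 := rfl
      beta_reduce
      rw [h3, h4]
      have : Real.exp (2 * x 1) * Real.exp s ^ 2 * (Real.exp (-s) * y 0) ^ 2
        = Real.exp (2 * x 1) * (Real.exp s * Real.exp (-s)) ^ 2 * y 0 ^ 2 := by ring
      rw [this, h2]; ring
    have hB : B (affE d c hd x) (fun i => d i * y i) = B x y := by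
      unfold B
      rw [e3]
      have : Real.exp (2 * (x 3 + t)) = Real.exp (2 * x 3) * Real.exp t ^ 2 := by
        rw [← exp_sq, ← Real.exp_add]; congr 1; ring
      rw [this]
      have h2 : Real.exp t * Real.exp (-t) = 1 := by rw [← Real.exp_add]; simp
      have h3 : d 2 = Real.exp (-t) := rfl
      have h4 : d 3 = 1 := rfl
      beta_reduce
      rw [h3, h4]
      have : Real.exp (2 * x 3) * Real.exp t ^ 2 * (Real.exp (-t) * y 2) ^ 2
        = Real.exp (2 * x 3) * (Real.exp t * Real.exp (-t)) ^ 2 * y 2 ^ 2 := by ring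
      rw [this, h2]; ring
    unfold FF L
    rw [hA, hB]
  · funext i
    show d i * p i + (q i - d i * p i) = q i
    ring

theorem not_riemannian_FF : ¬ IsRiemannian FF := by
  rintro ⟨h, -, hpos, hF⟩
  have hq : ∀ x y, L x y = y ⬝ᵥ (h x *ᵥ y) := by
    intro x y
    have h1 : FF x y ^ 2 = L x y := congrFun (congrFun sq_FF x) y
    rw [← h1, hF x y]
    apply Real.sq_sqrt
    by_cases hy : y = 0
    · subst hy; simp
    · have := (hpos x).dotProduct_mulVec_pos hy
      rw [star_trivial] at this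
      exact this.le
  let u : V 4 := ![1, 0, 0, 0]
  let w : V 4 := ![0, 0, 1, 0]
  have par : L 0 (u + w) + L 0 (u - w) = 2 * L 0 u + 2 * L 0 w := by
    rw [hq, hq, hq, hq]
    simp only [Matrix.mulVec_add, Matrix.mulVec_sub, dotProduct_add, dotProduct_sub,
      add_dotProduct, sub_dotProduct]
    ring
  have e1 : L 0 (u + w) = 9 / 2 := by
    unfold L A B
    simp [u, w]
    norm_num
  have e2 : L 0 (u - w) = 9 / 2 := by
    unfold L A B
    simp [u, w]
    norm_num
  have e3 : L 0 u = 2 := by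
    unfold L A B
    simp [u]
  have e4 : L 0 w = 2 := by
    unfold L A B
    simp [w]
  rw [e1, e2, e3, e4] at par
  norm_num at par

theorem geodesic_exists (x y : V 4) :
    ∃ ε > 0, ∃ γ v : ℝ → V 4, IsGeodesicOn FF ε γ v ∧ γ 0 = x ∧ v 0 = y := by
  let f : V 4 × V 4 → V 4 × V 4 := fun p => (p.2, fun i => -2 * Gh i p.1 p.2)
  have hf : ContDiff ℝ 1 f := by
    apply ContDiff.prodMk contDiff_snd
    rw [contDiff_pi]
    intro i
    unfold Gh
    fin_cases i <;> simp <;> fun_prop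
  obtain ⟨α, h0, ε, hε, hα⟩ :=
    (hf.contDiffAt (x := (x, y))).exists_forall_mem_closedBall_exists_eq_forall_mem_Ioo_hasDerivAt₀ 0
  refine ⟨ε, hε, fun t => (α t).1, fun t => (α t).2, ?_, by simp [h0], by simp [h0]⟩
  intro t ht
  have h := hα t (by simpa using ht)
  refine ⟨?_, ?_⟩
  · exact (hasFDerivAt_fst (𝕜 := ℝ) (p := α t)).comp_hasDerivAt t h
  · have h2 := (hasFDerivAt_snd (𝕜 := ℝ) (p := α t)).comp_hasDerivAt t h
    refine h2.congr_deriv ?_
    funext i
    simp [f, spray_eq]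

theorem const_on {ε : ℝ} (f : ℝ → ℝ)
    (hf : ∀ t ∈ Set.Ioo (-ε) ε, HasDerivAt f 0 t) : ∀ t ∈ Set.Ioo (-ε) ε, f t = f 0 := by
  intro t ht
  have h0 : (0 : ℝ) ∈ Set.Ioo (-ε) ε := by
    constructor <;> linarith [ht.1, ht.2]
  have hc : Convex ℝ (Set.Ioo (-ε) ε) := convex_Ioo _ _
  exact hc.is_const_of_fderivWithin_eq_zero (𝕜 := ℝ) (f := f)
    (fun s hs => (hf s hs).differentiableAt.differentiableWithinAt)
    (fun s hs => by
      have hu : UniqueDiffWithinAt ℝ (Set.Ioo (-ε) ε) s := isOpen_Ioo.uniqueDiffWithinAt hs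
      have h1 : HasFDerivWithinAt f (0 : ℝ →L[ℝ] ℝ) (Set.Ioo (-ε) ε) s := by
        have h2 := (hf s hs).hasFDerivAt.hasFDerivWithinAt (s := Set.Ioo (-ε) ε)
        simpa using h2
      exact h1.fderivWithin hu) ht h0

theorem A_const {ε : ℝ} {γ v : ℝ → V 4} (h : IsGeodesicOn FF ε γ v) :
    ∀ t ∈ Set.Ioo (-ε) ε, A (γ t) (v t) = A (γ 0) (v 0) := by
  apply const_on (fun t => A (γ t) (v t))
  intro t ht
  obtain ⟨h1, h2⟩ := h t ht
  rw [hasDerivAt_pi] at h1 h2
  simp only [spray_eq] at h2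
  have a1 := h1 1
  have b0 := h2 0
  have b1 := h2 1
  have h3 := (((a1.const_mul 2).exp).mul (b0.pow 2)).add (b1.pow 2)
  refine h3.congr_deriv ?_
  simp only [Gh, Pi.pow_apply, Matrix.cons_val_zero, Matrix.cons_val_one]
  simp
  ring

theorem B_const {ε : ℝ} {γ v : ℝ → V 4} (h : IsGeodesicOn FF ε γ v) :
    ∀ t ∈ Set.Ioo (-ε) ε, B (γ t) (v t) = B (γ 0) (v 0) := by
  apply const_on (fun t => B (γ t) (v t))
  intro t ht
  obtain ⟨h1, h2⟩ := h t ht
  rw [hasDerivAt_pi] at h1 h2
  simp only [spray_eq] at h2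
  have a1 := h1 3
  have b0 := h2 2
  have b1 := h2 3
  have h3 := (((a1.const_mul 2).exp).mul (b0.pow 2)).add (b1.pow 2)
  refine h3.congr_deriv ?_
  simp only [Gh, Pi.pow_apply]
  simp
  ring

theorem vanishingS_FF : VanishingS FF := by
  intro x y hy
  refine ⟨geodesic_exists x y, ?_⟩
  intro ε hε γ v hg h0 hv
  have hv0 : v 0 ≠ 0 := by rw [hv]; exact hy
  have hpos := AB_pos (γ 0) (v 0) hv0
  have hconst : ∀ t ∈ Set.Ioo (-ε) ε, distortion FF (γ t) (v t)
      = Real.log (Real.sqrt (Psi (A (γ 0) (v 0)) (B (γ 0) (v 0))) / sigmaBH FF 0) := by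
    intro t ht
    have hA := A_const hg t ht
    have hB := B_const hg t ht
    have hvt : v t ≠ 0 := by
      intro h
      rw [h, A_zero] at hA
      rw [h, B_zero] at hB
      linarith
    rw [distortion_eq (γ t) (v t) hvt, hA, hB]
  have hev : (fun t => distortion FF (γ t) (v t)) =ᶠ[nhds 0] fun _ =>
      Real.log (Real.sqrt (Psi (A (γ 0) (v 0)) (B (γ 0) (v 0))) / sigmaBH FF 0) := by
    filter_upwards [Ioo_mem_nhds (show -ε < 0 by linarith) hε] with t ht
    exact hconst t ht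
  exact (hasDerivAt_const (0 : ℝ) _).congr_of_eventuallyEq hev

end Pool.Agent.Helper452.Fins
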