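import Mathlib

set_option autoImplicit false

open Matrix

namespace Pool.Agent.Helper452.Fins

open scoped MatrixOrder

theorem frame_exists {m : ℕ} (G : Matrix (Fin (m + 1)) (Fin (m + 1)) ℝ) (hG : G.PosDef)
    (y : Fin (m + 1) → ℝ) (hy : y ≠ 0) :
    ∃ e : Fin m → (Fin (m + 1) → ℝ), (∀ i, y ⬝ᵥ (G *ᵥ e i) = 0) ∧
      ∀ i j, e i ⬝ᵥ (G *ᵥ e j) = if i = j then 1 else 0 := by
  let S : Matrix (Fin (m + 1)) (Fin (m + 1)) ℝ := CFC.sqrt G
  have hSS : S * S = G := CFC.sqrt_mul_sqrt_self G hG.posSemidef.nonneg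
  have hSt : Sᵀ = S := by
    have h := (CFC.sqrt_nonneg G).posSemidef.isHermitian
    unfold Matrix.IsHermitian at h
    rwa [Matrix.conjTranspose_eq_transpose_of_trivial] at h
  have hdet : IsUnit S.det := by
    have h1 : S.det * S.det = G.det := by rw [← Matrix.det_mul, hSS]
    have h2 := hG.det_pos
    rw [isUnit_iff_ne_zero]
    intro h0
    rw [h0] at h1
    simp at h1
    rw [← h1] at h2
    exact lt_irrefl _ h2
  have hform : ∀ u w : Fin (m + 1) → ℝ, u ⬝ᵥ (G *ᵥ w) = (S *ᵥ u) ⬝ᵥ (S *ᵥ w) := by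
    intro u w
    rw [← hSS, ← Matrix.mulVec_mulVec, Matrix.dotProduct_mulVec, ← Matrix.mulVec_transpose, hSt]
  let E := EuclideanSpace ℝ (Fin (m + 1))
  let v : E := WithLp.toLp 2 (S *ᵥ y)
  have hv : v ≠ 0 := by
    intro h0
    apply hy
    have h1 : S *ᵥ y = 0 := by
      have := congrArg WithLp.ofLp h0
      simpa [v] using this
    have h2 : S⁻¹ *ᵥ (S *ᵥ y) = 0 := by rw [h1]; simp
    rwa [Matrix.mulVec_mulVec, Matrix.nonsing_inv_mul _ hdet, Matrix.one_mulVec] at h2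
  have : Fact (Module.finrank ℝ E = m + 1) := ⟨by simp [E]⟩
  let b := OrthonormalBasis.fromOrthogonalSpanSingleton (𝕜 := ℝ) m hv
  have hdot : ∀ u w : E, inner ℝ u w = (WithLp.ofLp w) ⬝ᵥ (WithLp.ofLp u) := by
    intro u w
    rw [EuclideanSpace.inner_eq_star_dotProduct]
    simp
  refine ⟨fun i => S⁻¹ *ᵥ (WithLp.ofLp (b i : E)), ?_, ?_⟩
  · intro i
    rw [hform, Matrix.mulVec_mulVec, Matrix.mul_nonsing_inv _ hdet, Matrix.one_mulVec]
    have h1 : inner ℝ v (b i : E) = 0 := by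
      have := (b i).2
      rw [Submodule.mem_orthogonal_singleton_iff_inner_right] at this
      exact this
    rw [hdot] at h1
    rw [dotProduct_comm]
    exact h1
  · intro i j
    rw [hform, Matrix.mulVec_mulVec, Matrix.mulVec_mulVec, Matrix.mul_nonsing_inv _ hdet,
      Matrix.one_mulVec, Matrix.one_mulVec]
    have h1 := (orthonormal_iff_ite.1 b.orthonormal) j i
    rw [Submodule.coe_inner, hdot] at h1
    rw [h1]
    simp [eq_comm]

end Pool.Agent.Helper452.Fins
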